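import Pool.Agent.L5helper83.Det.MainPD

/-!
# The determinant inequality `det (A² + |AB|^p) ≥ det (A² + A^p B^p)`, `0 ≤ p ≤ 2`

For positive definite `S = A²`, `T = B²` and `r = p / 2 ∈ (0, 1]` the eigenvalues of
`S ^ (-(1 - r) / 2) T ^ r S ^ (-(1 - r) / 2)` are weakly log-majorized by those of
`S ^ (-1/2) (T ^ (1/2) S T ^ (1/2)) ^ r S ^ (-1/2)`. By passing to the compound matrices this follows
from the implication: if `(T ^ (1/2) S T ^ (1/2)) ^ r ≤ S` then `T ^ r ≤ S ^ (1 - r)`. For `r ≤ 1/2`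
this is a consequence of the Löwner-Heinz inequality. For `r ≥ 1/2` put `P = (T^(1/2) S T^(1/2)) ^ r`
and `Y = S ^ (1/2) T ^ (1/2) S ^ (1/2)`; since `P ≤ S`, Furuta's inequality gives
`Y ^ (4 / (1 + 1/r)) = (S ^ (1/2) P ^ (1/r) S ^ (1/2)) ^ (2 / (1 + 1/r)) ≤ S²`, and then
`T ^ r = (S ^ (-1/2) Y S ^ (-1/2)) ^ (2r) ≤ S ^ (1 - r)`.
-/

set_option autoImplicit false

open scoped MatrixOrder ComplexOrder Matrix.Norms.L2Operator NNReal
open Matrix Pool.Agent.L5helper83.Det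

namespace Pool.Agent.Results.MP_0f3ab5_an.DeterminantInequality

/-- sanity check: the power `A ^ q` of a positive semidefinite matrix in terms of the spectral
theorem (eigenvalues to the power `q`, where `0 ^ 0 = 1`) -/
theorem rpow_spectral {n : ℕ} {A : Matrix (Fin n) (Fin n) ℂ} (hA : A.PosSemidef) (q : ℝ) :
    A ^ q = (hA.isHermitian.eigenvectorUnitary : Matrix (Fin n) (Fin n) ℂ) *
      diagonal (fun i => ((hA.isHermitian.eigenvalues i ^ q : ℝ) : ℂ)) *
      star (hA.isHermitian.eigenvectorUnitary : Matrix (Fin n) (Fin n) ℂ) := by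
  rw [CFC.rpow_eq_cfc_real (ha := hA.nonneg), hA.isHermitian.cfc_eq]
  rfl

/-- sanity check: `|X|` is the positive semidefinite square root of `X* X` -/
theorem abs_spec {n : ℕ} (X : Matrix (Fin n) (Fin n) ℂ) :
    (CFC.abs X).PosSemidef ∧ CFC.abs X * CFC.abs X = Xᴴ * X :=
  ⟨(CFC.abs_nonneg X).posSemidef, CFC.abs_mul_abs X⟩

lemma cont_rpow {n : ℕ} {a : ℝ → Matrix (Fin n) (Fin n) ℂ} {t : Set ℝ} (ha : ContinuousOn a t)
    (h0 : ∀ x ∈ t, 0 ≤ a x) {p : ℝ} (hp : 0 < p) : ContinuousOn (fun x => (a x) ^ p) t := by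
  have : (fun x => (a x) ^ p) = fun x => cfc (fun y : ℝ≥0 => y ^ p) (a x) := by
    funext x
    rw [CFC.rpow_def]
  rw [this]
  refine ContinuousOn.cfc_nnreal_of_mem_nhdsSet (s := Set.univ) _ ?_ ha h0 ?_
  · exact Filter.univ_mem
  · exact (NNReal.continuous_rpow_const hp.le).continuousOn

lemma abs_rpow {n : ℕ} (X : Matrix (Fin n) (Fin n) ℂ) {p : ℝ} (hp : 0 < p) :
    CFC.abs X ^ p = (star X * X) ^ (p / 2) := by
  rw [CFC.abs, CFC.sqrt_eq_rpow, CFC.rpow_rpow_of_exponent_nonneg _ _ _ (by norm_num) hp.le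
    (star_mul_self_nonneg X)]
  congr 1
  ring

/-- the inequality for positive definite matrices -/
lemma pd {n : ℕ} {A B : Matrix (Fin n) (Fin n) ℂ} (hA : IsStrictlyPositive A)
    (hB : IsStrictlyPositive B) {p : ℝ} (hp0 : 0 < p) (hp2 : p ≤ 2) :
    0 ≤ (A ^ 2 + A ^ p * B ^ p).det ∧
    (A ^ 2 + A ^ p * B ^ p).det ≤ (A ^ 2 + CFC.abs (A * B) ^ p).det := by
  have h1 := det_pd (hA.rpow A 2) (hB.rpow B 2) (r := p / 2) (by linarith) (by linarith)
  have eA : A ^ (2 : ℝ) = A ^ 2 := by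
    have := CFC.rpow_natCast A 2 hA.nonneg
    rw [← this]; norm_num
  have e1 : (A ^ (2 : ℝ)) ^ (p / 2) = A ^ p := by
    rw [rr hA]; congr 1; ring
  have e2 : (B ^ (2 : ℝ)) ^ (p / 2) = B ^ p := by
    rw [rr hB]; congr 1; ring
  have e3 : (B ^ (2 : ℝ)) ^ (1 / 2 : ℝ) = B := by
    rw [rr hB]; norm_num; exact CFC.rpow_one B hB.nonneg
  have e4 : CFC.abs (A * B) ^ p = (B * A ^ 2 * B) ^ (p / 2) := by
    rw [abs_rpow _ hp0, star_mul, (IsSelfAdjoint.of_nonneg hA.nonneg).star_eq,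
      (IsSelfAdjoint.of_nonneg hB.nonneg).star_eq]
    congr 1
    rw [sq]
    simp only [mul_assoc]
  rw [e1, e2, e3, eA] at h1
  rw [e4]
  exact h1

/-- **The determinant inequality.** For positive semidefinite `A`, `B` and `0 ≤ p ≤ 2` the
determinant of `A² + A^p B^p` is a nonnegative real number, and
`det (A² + |AB|^p) ≥ det (A² + A^p B^p)`. -/
theorem result (n : ℕ) (A B : Matrix (Fin n) (Fin n) ℂ) (hA : A.PosSemidef) (hB : B.PosSemidef)
    (p : ℝ) (hp0 : 0 ≤ p) (hp2 : p ≤ 2) :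
    0 ≤ (A ^ 2 + A ^ p * B ^ p).det ∧
    (A ^ 2 + A ^ p * B ^ p).det ≤ (A ^ 2 + CFC.abs (A * B) ^ p).det := by
  rcases hp0.eq_or_lt with h0 | h0
  · subst h0
    rw [CFC.rpow_zero A hA.nonneg, CFC.rpow_zero B hB.nonneg,
      CFC.rpow_zero _ (CFC.abs_nonneg (A * B)), mul_one]
    refine ⟨?_, le_rfl⟩
    have h2 : (A ^ 2 + 1).PosSemidef := by
      refine PosSemidef.add ?_ PosSemidef.one
      rw [sq]
      have := posSemidef_conjTranspose_mul_self A
      rwa [hA.isHermitian.eq] at this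
    exact h2.det_nonneg
  · -- the limit
    obtain ⟨a, ha⟩ : ∃ a : ℝ → Matrix (Fin n) (Fin n) ℂ, a = fun x : ℝ => A + (x : ℂ) • 1 := ⟨_, rfl⟩
    obtain ⟨b, hb⟩ : ∃ b : ℝ → Matrix (Fin n) (Fin n) ℂ, b = fun x : ℝ => B + (x : ℂ) • 1 := ⟨_, rfl⟩
    have hac : Continuous a := by rw [ha]; fun_prop
    have hbc : Continuous b := by rw [hb]; fun_prop
    have hpos : ∀ {M : Matrix (Fin n) (Fin n) ℂ}, M.PosSemidef → ∀ x : ℝ, 0 < x →
        IsStrictlyPositive (M + (x : ℂ) • 1) := by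
      intro M hM x hx
      have h1 : ((x : ℂ) • (1 : Matrix (Fin n) (Fin n) ℂ)).PosDef :=
        PosDef.smul PosDef.one (by exact_mod_cast hx)
      have h2 : (M + (x : ℂ) • 1).PosDef := PosDef.posSemidef_add hM h1
      exact h2.isStrictlyPositive
    have hnn : ∀ {M : Matrix (Fin n) (Fin n) ℂ}, M.PosSemidef → ∀ x ∈ Set.Ici (0 : ℝ),
        0 ≤ M + (x : ℂ) • 1 := by
      intro M hM x hx
      rcases (Set.mem_Ici.1 hx).eq_or_lt with h | h
      · rw [← h]
        simpa using hM.nonneg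
      · exact (hpos hM x h).nonneg
    have hF : ContinuousOn (fun x => ((a x) ^ 2 + (a x) ^ p * (b x) ^ p).det) (Set.Ici 0) := by
      have h1 := cont_rpow hac.continuousOn (fun x hx => by rw [ha]; exact hnn hA x hx) h0
      have h2 := cont_rpow hbc.continuousOn (fun x hx => by rw [hb]; exact hnn hB x hx) h0
      exact (Continuous.matrix_det continuous_id).comp_continuousOn
        (((hac.pow 2).continuousOn).add (h1.mul h2))
    have hG : ContinuousOn (fun x => ((a x) ^ 2 + CFC.abs (a x * b x) ^ p).det) (Set.Ici 0) := by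
      have h1 : ContinuousOn (fun x => (star (a x * b x) * (a x * b x)) ^ (p / 2))
          (Set.Ici (0 : ℝ)) :=
        cont_rpow (((hac.mul hbc).star.mul (hac.mul hbc)).continuousOn)
          (fun x _ => star_mul_self_nonneg _) (by linarith)
      simp only [abs_rpow _ h0]
      exact (Continuous.matrix_det continuous_id).comp_continuousOn
        (((hac.pow 2).continuousOn).add h1)
    have hF0 : ((a 0) ^ 2 + (a 0) ^ p * (b 0) ^ p).det = (A ^ 2 + A ^ p * B ^ p).det := by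
      rw [ha, hb]; simp
    have hG0 : ((a 0) ^ 2 + CFC.abs (a 0 * b 0) ^ p).det = (A ^ 2 + CFC.abs (A * B) ^ p).det := by
      rw [ha, hb]; simp
    have hmem : (0 : ℝ) ∈ closure (Set.Ioi (0 : ℝ)) := by
      rw [closure_Ioi]
      exact Set.mem_Ici.2 le_rfl
    have hFt : Filter.Tendsto (fun x => ((a x) ^ 2 + (a x) ^ p * (b x) ^ p).det)
        (nhdsWithin 0 (Set.Ioi 0)) (nhds (A ^ 2 + A ^ p * B ^ p).det) := by
      rw [← hF0]
      exact (hF 0 (Set.mem_Ici.2 le_rfl)).mono_left (nhdsWithin_mono _ Set.Ioi_subset_Ici_self)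
    have hGt : Filter.Tendsto (fun x => ((a x) ^ 2 + CFC.abs (a x * b x) ^ p).det)
        (nhdsWithin 0 (Set.Ioi 0)) (nhds (A ^ 2 + CFC.abs (A * B) ^ p).det) := by
      rw [← hG0]
      exact (hG 0 (Set.mem_Ici.2 le_rfl)).mono_left (nhdsWithin_mono _ Set.Ioi_subset_Ici_self)
    have hev : ∀ᶠ x in nhdsWithin (0 : ℝ) (Set.Ioi 0),
        0 ≤ ((a x) ^ 2 + (a x) ^ p * (b x) ^ p).det ∧
        ((a x) ^ 2 + (a x) ^ p * (b x) ^ p).det ≤ ((a x) ^ 2 + CFC.abs (a x * b x) ^ p).det := by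
      filter_upwards [self_mem_nhdsWithin] with x hx
      refine pd ?_ ?_ h0 hp2
      · rw [ha]; exact hpos hA x hx
      · rw [hb]; exact hpos hB x hx
    exact ⟨ge_of_tendsto hFt (hev.mono fun x hx => hx.1),
      le_of_tendsto_of_tendsto hFt hGt (hev.mono fun x hx => hx.2)⟩

end Pool.Agent.Results.MP_0f3ab5_an.DeterminantInequality
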